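import Pool.Agent.E8helper88.Mul.Glob1
import Pool.Agent.Y784.CH.A
import Pool.Agent.W277.UH.F1

/-!
# The height of the value of a rational map, the growth of the height along an orbit
-/

set_option autoImplicit false

namespace Pool.Agent.E8helper71.HT

open Polynomial Finset
open Pool.Agent.W277.UB Pool.Agent.E8helper88.Mul Pool.Agent.W277.UH
open Pool.Agent.W277.UB.PlaceData

universe u v w

lemma res_ne0 {K : Type*} [Field K] (d : ℕ) (p q : K[X]) (hp : p.natDegree ≤ d)
    (hq : q.natDegree = d) (hd : 1 ≤ d) (hco : IsCoprime p q) : resultant q p d d ≠ 0 := by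
  intro h0
  set φ := algebraMap K (AlgebraicClosure K) with hφ
  have h1 := resultant_eq_prod_eval (q.map φ) (p.map φ) d (natDegree_map_le.trans hp)
    (IsAlgClosed.splits _)
  rw [natDegree_map, hq, resultant_map_map, h0, map_zero] at h1
  have hq0 : q.map φ ≠ 0 := by
    intro h
    have h2 : (q.map φ).natDegree = d := by rw [natDegree_map, hq]
    rw [h, natDegree_zero] at h2
    omega
  have h2 := (mul_eq_zero.mp h1.symm).resolve_left (pow_ne_zero _ (leadingCoeff_ne_zero.mpr hq0))
  rw [Multiset.prod_eq_zero_iff, Multiset.mem_map] at h2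
  obtain ⟨x, hx, hpx⟩ := h2
  have hqx : (q.map φ).eval x = 0 := (mem_roots hq0).mp hx
  obtain ⟨u, w, h⟩ := hco
  have h3 := congrArg (fun g : Polynomial K => (g.map φ).eval x) h
  simp only [Polynomial.map_add, Polynomial.map_mul, Polynomial.map_one, eval_add, eval_mul,
    eval_one] at h3
  rw [hpx, hqx, mul_zero, mul_zero, add_zero] at h3
  exact zero_ne_one h3

/-- the resultant does not vanish -/
lemma res_ne {K : Type*} [Field K] (d : ℕ) (hd : 1 ≤ d) (p q : K[X])
    (hmax : max p.natDegree q.natDegree = d) (hco : IsCoprime p q) : resultant q p d d ≠ 0 := by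
  rcases max_choice p.natDegree q.natDegree with h | h
  · rw [h] at hmax
    have h1 := res_ne0 d q p (hmax ▸ le_of_max_le_right (le_of_eq h)) hmax hd hco.symm
    rw [resultant_comm]
    exact mul_ne_zero (pow_ne_zero _ (by simp)) h1
  · rw [h] at hmax
    exact res_ne0 d p q (hmax ▸ le_of_max_le_left (le_of_eq h)) hmax hd hco

section
variable {k : Type v} {K : Type u} [Field k] [Field K] [Algebra k K]

/-- the height of a point of the projective line -/
noncomputable def hto (Q : PlaceData.{w} k K) : Option K → ℤ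
  | some x => ht Q x
  | none => 0

lemma hto_nn (Q : PlaceData.{w} k K) (z : Option K) : 0 ≤ hto Q z := by
  cases z with
  | none => exact le_rfl
  | some x => exact Pool.Agent.E8helper88.Mul.ht_nonneg x

/-- the lower bound for the height of the value of a rational map -/
theorem ht_lower (Q : PlaceData.{w} k K) (d : ℕ) (hd : 1 ≤ d) (p q : K[X])
    (hmax : max p.natDegree q.natDegree = d) (hco : IsCoprime p q) (H : ℤ)
    (hp : ∀ i, ht Q (p.coeff i) ≤ H) (hq : ∀ i, ht Q (q.coeff i) ≤ H) (z : Option K) :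
    d * hto Q z ≤ hto Q (ratP1 p q d z) + 8 * (d + 1) ^ 2 * H := by
  classical
  have hH : 0 ≤ H := (Pool.Agent.E8helper88.Mul.ht_nonneg _).trans (hp 0)
  have hrhs : 0 ≤ 8 * ((d : ℤ) + 1) ^ 2 * H := by positivity
  cases z with
  | none =>
    have := hto_nn Q (ratP1 p q d none)
    show (d : ℤ) * 0 ≤ _
    linarith
  | some x =>
    have hpd : p.natDegree ≤ d := hmax ▸ le_max_left _ _
    have hqd : q.natDegree ≤ d := hmax ▸ le_max_right _ _
    have hR := res_ne d hd p q hmax hco
    set Rs := resultant q p d d with hRs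
    set cf : Finset K := (range (d + 1)).image p.coeff ∪ (range (d + 1)).image q.coeff with hcf
    have hpcf : ∀ i, p.coeff i ∈ cf ∨ p.coeff i = 0 := by
      intro i
      by_cases hi : i ≤ d
      · exact Or.inl (Finset.mem_union_left _ (Finset.mem_image_of_mem _ (mem_range.2 (by omega))))
      · exact Or.inr (coeff_eq_zero_of_natDegree_lt (by omega))
    have hqcf : ∀ i, q.coeff i ∈ cf ∨ q.coeff i = 0 := by
      intro i
      by_cases hi : i ≤ d
      · exact Or.inl (Finset.mem_union_right _ (Finset.mem_image_of_mem _ (mem_range.2 (by omega))))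
      · exact Or.inr (coeff_eq_zero_of_natDegree_lt (by omega))
    -- a nonzero coefficient
    have hne : (cf.filter (· ≠ 0)).Nonempty := by
      by_contra hcon
      rw [Finset.not_nonempty_iff_eq_empty, Finset.filter_eq_empty_iff] at hcon
      have h1 : ∀ i, p.coeff i = 0 := fun i => by
        rcases hpcf i with h | h
        · simpa using hcon h
        · exact h
      have h2 : ∀ i, q.coeff i = 0 := fun i => by
        rcases hqcf i with h | h
        · simpa using hcon h
        · exact h
      have h3 : p = 0 := by ext i; rw [h1, coeff_zero]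
      have h4 : q = 0 := by ext i; rw [h2, coeff_zero]
      rw [h3, h4] at hmax
      simp at hmax
      omega
    have hc : ∀ v : Q.Pl, ∃ c ∈ cf, c ≠ 0 ∧ ∀ y ∈ cf, Q.G v (Q.ord v c) y := by
      intro v
      obtain ⟨c, hc1, hc2⟩ := Finset.exists_min_image (cf.filter (· ≠ 0)) (Q.ord v) hne
      rw [Finset.mem_filter] at hc1
      exact ⟨c, hc1.1, hc1.2, fun y hy hy0 => hc2 y (Finset.mem_filter.2 ⟨hy, hy0⟩)⟩
    choose c hccf hc0 hcG using hc
    have hpG : ∀ v i, Q.G v (Q.ord v (c v)) (p.coeff i) := by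
      intro v i
      rcases hpcf i with h | h
      · exact hcG v _ h
      · rw [h]; exact G_zero
    have hqG : ∀ v i, Q.G v (Q.ord v (c v)) (q.coeff i) := by
      intro v i
      rcases hqcf i with h | h
      · exact hcG v _ h
      · rw [h]; exact G_zero
    -- the size of the coefficients
    have hcv : ∀ v, -Q.ord v (c v) ≤ ∑ y ∈ cf, Q.pole v y := by
      intro v
      have h1 : -Q.ord v (c v) ≤ Q.pole v (c v) := by
        rw [pole_of_ne (hc0 v)]
        exact le_max_right _ _
      exact h1.trans (Finset.single_le_sum (f := fun y => Q.pole v y)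
        (fun y _ => pole_nonneg v y) (hccf v))
    have hcfH : ∀ y ∈ cf, ht Q y ≤ H := by
      intro y hy
      rw [hcf, Finset.mem_union, Finset.mem_image, Finset.mem_image] at hy
      rcases hy with ⟨i, _, rfl⟩ | ⟨i, _, rfl⟩
      · exact hp i
      · exact hq i
    have hcard : (cf.card : ℤ) ≤ 2 * (d + 1) := by
      have h1 : cf.card ≤ (d + 1) + (d + 1) := by
        refine (Finset.card_union_le _ _).trans (add_le_add ?_ ?_)
        · exact Finset.card_image_le.trans (by rw [card_range])
        · exact Finset.card_image_le.trans (by rw [card_range])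
      have : (cf.card : ℤ) ≤ ((d + 1 + (d + 1) : ℕ) : ℤ) := by exact_mod_cast h1
      push_cast at this
      linarith
    -- the main inequality: `y0` is a value with the product formula, `w` the value of the map
    have main : ∀ (w y0 : K), y0 ≠ 0 →
        (∀ v, Q.G v (Q.ord v y0 - Q.pole v w) (p.eval x)) →
        (∀ v, Q.G v (Q.ord v y0 - Q.pole v w) (q.eval x)) →
        (d : ℤ) * ht Q x ≤ ht Q w + 8 * (d + 1) ^ 2 * H := by
      intro w y0 hy0 hp1 hq1
      obtain ⟨S, hS⟩ := exists_supp (Q := Q) (cf ∪ {x, w, y0, Rs})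
      have hx := hS x (by simp)
      have hw := hS w (by simp)
      have hy := hS y0 (by simp)
      have hr := hS Rs (by simp)
      have hcs : ∀ y ∈ cf, ht Q y = ∑ v ∈ S, Q.wt v * Q.pole v y := fun y hy =>
        ht_eq y S (hS y (Finset.mem_union_left _ hy)).1
      have hv : ∀ v, (d : ℤ) * Q.pole v x ≤ Q.ord v Rs + (2 * d - 1) * (∑ y ∈ cf, Q.pole v y) -
          Q.ord v y0 + Q.pole v w := by
        intro v
        have h1 := Pool.Agent.Y784.CH.low (v := v) d hd p q hpd hqd (c v) (hc0 v) (hpG v) (hqG v) hR x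
          (Q.ord v y0 - Q.pole v w) (hp1 v) (hq1 v)
        rw [← hRs] at h1
        have h2 := hcv v
        have h3 : (0 : ℤ) ≤ 2 * (d : ℤ) - 1 := by
          have : (1 : ℤ) ≤ d := by exact_mod_cast hd
          linarith
        have h4 := mul_le_mul_of_nonneg_left h2 h3
        linarith
      rw [ht_eq x S hx.1, ht_eq w S hw.1, Finset.mul_sum]
      have h5 := prod_eq Rs hR S (hr.2 hR)
      have h6 := prod_eq y0 hy0 S (hy.2 hy0)
      calc ∑ v ∈ S, (d : ℤ) * (Q.wt v * Q.pole v x) ≤
            ∑ v ∈ S, (Q.wt v * Q.ord v Rs + (2 * d - 1) * (Q.wt v * ∑ y ∈ cf, Q.pole v y) -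
              Q.wt v * Q.ord v y0 + Q.wt v * Q.pole v w) := by
            refine Finset.sum_le_sum fun v _ => ?_
            have := mul_le_mul_of_nonneg_left (hv v) (Q.wt_nonneg v)
            linarith
        _ = ∑ v ∈ S, Q.wt v * Q.ord v Rs + (2 * d - 1) * ∑ v ∈ S, (Q.wt v * ∑ y ∈ cf, Q.pole v y) -
              ∑ v ∈ S, Q.wt v * Q.ord v y0 + ∑ v ∈ S, Q.wt v * Q.pole v w := by
            rw [Finset.sum_add_distrib, Finset.sum_sub_distrib, Finset.sum_add_distrib,
              ← Finset.mul_sum]
        _ = (2 * d - 1) * ∑ y ∈ cf, ht Q y + ∑ v ∈ S, Q.wt v * Q.pole v w := by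
            rw [h5, h6]
            have : ∑ v ∈ S, (Q.wt v * ∑ y ∈ cf, Q.pole v y) = ∑ y ∈ cf, ht Q y := by
              rw [Finset.sum_congr rfl hcs, Finset.sum_comm]
              exact Finset.sum_congr rfl fun v _ => by rw [Finset.mul_sum]
            rw [this]
            ring
        _ ≤ ∑ v ∈ S, Q.wt v * Q.pole v w + 8 * ((d : ℤ) + 1) ^ 2 * H := by
            have h7 : ∑ y ∈ cf, ht Q y ≤ 2 * (d + 1) * H := by
              calc ∑ y ∈ cf, ht Q y ≤ ∑ y ∈ cf, H := Finset.sum_le_sum hcfH
                _ = cf.card * H := by rw [Finset.sum_const, nsmul_eq_mul]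
                _ ≤ _ := mul_le_mul_of_nonneg_right hcard hH
            have h8 : (1 : ℤ) ≤ d := by exact_mod_cast hd
            have h9 : (2 * (d : ℤ) - 1) * ∑ y ∈ cf, ht Q y ≤ (2 * d - 1) * (2 * (d + 1) * H) :=
              mul_le_mul_of_nonneg_left h7 (by linarith)
            have h10 : (2 * (d : ℤ) - 1) * (2 * (d + 1) * H) ≤ 8 * ((d : ℤ) + 1) ^ 2 * H := by
              have : (2 * (d : ℤ) - 1) * (2 * (d + 1)) ≤ 8 * ((d : ℤ) + 1) ^ 2 := by nlinarith
              calc (2 * (d : ℤ) - 1) * (2 * (d + 1) * H) = (2 * (d : ℤ) - 1) * (2 * (d + 1)) * H := by ring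
                _ ≤ _ := mul_le_mul_of_nonneg_right this hH
            linarith
    by_cases hq0 : q.eval x = 0
    · rw [ratP1_some0 p q d x hq0]
      have hp0 : p.eval x ≠ 0 := by
        intro h
        obtain ⟨a, b, hab⟩ := hco
        have := congrArg (fun f => f.eval x) hab
        simp [h, hq0] at this
      have h1 := main 0 (p.eval x) hp0 (fun v => by
        rw [pole_zero, sub_zero]
        exact G_self) (fun v => by rw [hq0]; exact G_zero)
      rw [ht_zero] at h1
      exact h1
    · rw [ratP1_some p q d x hq0]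
      refine main (p.eval x / q.eval x) (q.eval x) hq0 (fun v => ?_) (fun v => ?_)
      · have h1 : p.eval x = q.eval x * (p.eval x / q.eval x) := by field_simp
        have h2 := G_mul (v := v) (Q := Q) (G_self (x := q.eval x)) (G_pole v (p.eval x / q.eval x))
        rw [← h1] at h2
        exact G_mono h2 (by linarith)
      · refine G_mono (G_self (x := q.eval x)) ?_
        have := pole_nonneg v (p.eval x / q.eval x)
        linarith

/-- the growth of the height along an orbit -/
theorem growth (Q : PlaceData.{w} k K) (d : ℕ) (hd : 2 ≤ d) (p q : K[X])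
    (hmax : max p.natDegree q.natDegree = d) (hco : IsCoprime p q) (H : ℤ)
    (hp : ∀ i, ht Q (p.coeff i) ≤ H) (hq : ∀ i, ht Q (q.coeff i) ≤ H) (K0 : ℤ)
    (hK0 : K0 = 8 * (d + 1) ^ 2 * H) (y : ℕ → Option K) (hy : ∀ j, y (j + 1) = ratP1 p q d (y j))
    (j0 : ℕ) (h0 : 2 * K0 ≤ hto Q (y j0)) (i : ℕ) :
    (d : ℤ) ^ i * K0 + K0 ≤ hto Q (y (j0 + i)) := by
  have hH : 0 ≤ H := (Pool.Agent.E8helper88.Mul.ht_nonneg _).trans (hp 0)
  have hK : 0 ≤ K0 := by rw [hK0]; positivity
  induction i with
  | zero =>
    rw [pow_zero, one_mul, add_zero]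
    linarith
  | succ i ih =>
    have h1 := ht_lower Q d (by omega) p q hmax hco H hp hq (y (j0 + i))
    rw [← hy, ← hK0] at h1
    have h2 : (2 : ℤ) ≤ d := by exact_mod_cast hd
    have h3 : (d : ℤ) * ((d : ℤ) ^ i * K0 + K0) ≤ d * hto Q (y (j0 + i)) :=
      mul_le_mul_of_nonneg_left ih (by linarith)
    rw [← add_assoc, pow_succ]
    nlinarith

end

end Pool.Agent.E8helper71.HT
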