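import Pool.Agent.E8helper88.Mul.Glob1
import Pool.Agent.Y968.CH.Deg
import Pool.Agent.Y195.CH.NRM
import Pool.Agent.Y362.CH.PD
import Pool.Agent.W277.UD.Prim
import Pool.Agent.W277.UD.StrongFin

/-!
# Place data for a function field: heights and degrees are comparable
-/

set_option autoImplicit false

namespace Pool.Agent.E8helper71.HT

open Polynomial Finset
open Pool.Agent.W277.UB Pool.Agent.E8helper88.Mul
open Pool.Agent.W277.UB.PlaceData

universe u v w

/-- heights and degrees of field extensions are comparable -/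
theorem exists_place : ∃ C : ℕ → ℕ, ∀ (k : Type v) (M : Type u) [Field k] [CharZero k] [Field M]
    [Algebra k M] (t : M), Transcendental k t →
    FiniteDimensional (IntermediateField.adjoin k {t}) M → ∀ n,
    Module.finrank (IntermediateField.adjoin k {t}) M ≤ n →
    ∃ (k' : Type u) (_ : Field k') (_ : CharZero k') (_ : Algebra k' M) (Q : PlaceData.{u} k' M),
      (∀ x : M, IsAlgebraic k x ↔ ∃ c : k', algebraMap k' M c = x) ∧
      ∀ x : M, (ht Q x : ℤ) ≤ C n * Module.finrank (IntermediateField.adjoin k {x}) M ∧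
        (Module.finrank (IntermediateField.adjoin k {x}) M : ℤ) ≤ C n * ht Q x := by
  classical
  obtain ⟨C, hC⟩ := Pool.Agent.Y362.CH.t_PD.{u, u}
  refine ⟨fun n => (n + 1) * ∑ m ∈ range (n + 1), C m, ?_⟩
  intro k M _ _ _ _ t htr hfd n hn
  obtain ⟨inst, hst, hfin, hle⟩ := Pool.Agent.W277.UD.exists_ratAlg k M t htr
  obtain ⟨hkf, hkfle⟩ := Pool.Agent.Y968.CH.t_KF k M t htr hfd
  have ck : CharZero (algebraicClosure k M) :=
    charZero_of_injective_algebraMap (algebraMap k (algebraicClosure k M)).injective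
  have hk : ∀ x : M, IsAlgebraic k x →
      ∃ c : algebraicClosure k M, algebraMap (algebraicClosure k M) M c = x := fun x hx =>
    ⟨⟨x, hx.isIntegral⟩, rfl⟩
  have halg : ∀ x : M, IsAlgebraic (algebraicClosure k M) x →
      ∃ c : algebraicClosure k M, algebraMap (algebraicClosure k M) M c = x := fun y hy =>
    hk y (hy.restrictScalars k)
  have cR : CharZero (RatFunc (algebraicClosure k M)) := charZero_of_injective_algebraMap
    (algebraMap (algebraicClosure k M) (RatFunc (algebraicClosure k M))).injective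
  obtain ⟨u, -, hugen, huc⟩ := Pool.Agent.W277.UD.exists_gen (k := algebraicClosure k M)
    (F := RatFunc (algebraicClosure k M)) (E := M)
    Set.univ (IntermediateField.adjoin_univ _ _) t (Set.mem_univ t) (by
      intro c hc
      apply htr
      rw [hc]
      have h4 : IsAlgebraic k (algebraMap (algebraicClosure k M) M c) :=
        mem_algebraicClosure_iff.mp c.2
      exact h4)
  obtain ⟨Q, -, hQ⟩ := hC (algebraicClosure k M) M halg u hugen huc
  obtain ⟨t₁, ht₁, hfd₁⟩ := Pool.Agent.Y195.CH.t_FDA (algebraicClosure k M) M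
  refine ⟨algebraicClosure k M, inferInstance, ck, inferInstance, Q, fun x => ⟨hk x, ?_⟩, ?_⟩
  · rintro ⟨c, rfl⟩
    exact mem_algebraicClosure_iff.mp c.2
  intro x
  obtain ⟨h1, h2⟩ := Pool.Agent.Y968.CH.t_HT k (algebraicClosure k M) M M t₁ ht₁ hfd₁ x
  obtain ⟨S, hS⟩ := exists_supp (Q := Q) {x}
  obtain ⟨h3, h4⟩ := hQ x S (hS x (Finset.mem_singleton_self x)).1
  rw [← ht_eq x S (hS x (Finset.mem_singleton_self x)).1] at h3 h4
  set m := Module.finrank (RatFunc (algebraicClosure k M)) M with hm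
  have hmn : m ≤ n := hle.trans hn
  have hCm : C m ≤ ∑ m ∈ range (n + 1), C m :=
    Finset.single_le_sum (f := fun m => C m) (fun _ _ => Nat.zero_le _) (mem_range.2 (by omega))
  set Sg := ∑ m ∈ range (n + 1), C m with hSg
  rw [Module.finrank_self, mul_one] at h2
  change Module.finrank _ M ≤ Module.finrank (IntermediateField.adjoin k {x}) M at h1
  change Module.finrank (IntermediateField.adjoin k {x}) M ≤ _ at h2
  set a := Module.finrank (IntermediateField.adjoin k {x}) M with ha
  set b := Module.finrank (IntermediateField.adjoin (algebraicClosure k M) {x}) M with hb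
  have hht := ht_nonneg (Q := Q) x
  have hkn : Module.finrank k (algebraicClosure k M) ≤ n := hkfle.trans hn
  have i1 : (C m : ℤ) ≤ Sg := by exact_mod_cast hCm
  have i2 : (b : ℤ) ≤ a := by exact_mod_cast h1
  have i3 : (a : ℤ) ≤ n * b := by exact_mod_cast h2.trans (Nat.mul_le_mul_right _ hkn)
  have i4 : (0 : ℤ) ≤ C m := Nat.cast_nonneg _
  have i5 : (0 : ℤ) ≤ b := Nat.cast_nonneg _
  have i6 : (0 : ℤ) ≤ a := Nat.cast_nonneg _
  have i7 : (0 : ℤ) ≤ n := Nat.cast_nonneg _
  have e1 : (((n + 1) * ∑ m ∈ range (n + 1), C m : ℕ) : ℤ) = ((n : ℤ) + 1) * Sg := by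
    rw [← hSg]
    push_cast
    ring
  show ht Q x ≤ (((n + 1) * ∑ m ∈ range (n + 1), C m : ℕ) : ℤ) * a ∧
    (a : ℤ) ≤ (((n + 1) * ∑ m ∈ range (n + 1), C m : ℕ) : ℤ) * ht Q x
  rw [e1]
  constructor
  · calc ht Q x ≤ C m * b := h3
      _ ≤ Sg * a := mul_le_mul i1 i2 i5 (i4.trans i1)
      _ ≤ ((n : ℤ) + 1) * Sg * a := by
          have : 0 ≤ (n : ℤ) * (Sg * a) := mul_nonneg i7 (mul_nonneg (i4.trans i1) i6)
          linarith
  · calc (a : ℤ) ≤ n * b := i3
      _ ≤ n * (C m * ht Q x) := mul_le_mul_of_nonneg_left h4 i7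
      _ ≤ (n + 1) * (Sg * ht Q x) := by
          apply mul_le_mul (by linarith) (mul_le_mul_of_nonneg_right i1 hht)
            (mul_nonneg i4 hht) (by linarith)
      _ = _ := by ring

end Pool.Agent.E8helper71.HT
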