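import Mathlib

/-!
# An automorphism of an algebraically closed field which moves a given transcendental element
-/

set_option autoImplicit false

namespace Pool.Agent.E8helper71.UB

universe u

open MvPolynomial

theorem exists_shift_aut (Om : Type u) [Field Om] [IsAlgClosed Om] [CharZero Om] (F : Subfield Om)
    (hF : ∀ x : Om, IsAlgebraic F x → x ∈ F) (x : Om) (hx : x ∉ F) :
    ∃ σ : Om ≃+* Om, (∀ y ∈ F, σ y = y) ∧ σ x = x + 1 := by
  classical
  have htr : Transcendental F x := fun h => hx (hF x h)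
  have hs : AlgebraicIndepOn F id ({x} : Set Om) := by
    unfold AlgebraicIndepOn
    rw [algebraicIndependent_singleton_iff (⟨x, rfl⟩ : ({x} : Set Om))]
    exact htr
  obtain ⟨B, hxB, hB⟩ := exists_isTranscendenceBasis_superset hs
  have hxB' : x ∈ B := hxB rfl
  set v : B → Om := ((↑) : B → Om) with hv
  let a : B → MvPolynomial B F := fun i => X i + (if (i : Om) = x then 1 else 0)
  let b : B → MvPolynomial B F := fun i => X i - (if (i : Om) = x then 1 else 0)
  let τ : MvPolynomial B F ≃ₐ[F] MvPolynomial B F :=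
    AlgEquiv.ofAlgHom (aeval a) (aeval b)
      (by
        ext1 i
        simp only [AlgHom.coe_comp, Function.comp_apply, aeval_X, AlgHom.coe_id, id_eq, a, b,
          map_sub]
        split_ifs <;> simp)
      (by
        ext1 i
        simp only [AlgHom.coe_comp, Function.comp_apply, aeval_X, AlgHom.coe_id, id_eq, a, b,
          map_add]
        split_ifs <;> simp)
  let e := hB.1.aevalEquiv
  let φ : Algebra.adjoin F (Set.range v) ≃+* Algebra.adjoin F (Set.range v) :=
    (e.symm.trans (τ.trans e)).toRingEquiv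
  let _ := IsAlgClosed.isAlgClosure_of_transcendence_basis v hB
  let σ : Om ≃+* Om := IsAlgClosure.equivOfEquiv Om Om φ
  have hσ : ∀ z : Algebra.adjoin F (Set.range v), σ (z : Om) = (φ z : Om) := fun z =>
    IsAlgClosure.equivOfEquiv_algebraMap Om Om φ z
  have he : ∀ p : MvPolynomial B F, (e p : Om) = aeval v p := fun p => by
    simp [e, hv]
  have hφ : ∀ p : MvPolynomial B F, φ (e p) = e (τ p) := by
    intro p
    simp [φ]
  have hσ2 : ∀ p : MvPolynomial B F, σ (aeval v p) = aeval v (τ p) := by
    intro p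
    rw [← he, hσ, hφ, he]
  refine ⟨σ, fun y hy => ?_, ?_⟩
  · have h1 := hσ2 (C (⟨y, hy⟩ : F))
    have h2 : τ (C (⟨y, hy⟩ : F)) = C (⟨y, hy⟩ : F) := τ.commutes _
    rw [h2, aeval_C] at h1
    exact h1
  · have h1 := hσ2 (X (⟨x, hxB'⟩ : B))
    have h2 : τ (X (⟨x, hxB'⟩ : B)) = X (⟨x, hxB'⟩ : B) + 1 := by
      simp [τ, a]
    rw [h2] at h1
    simpa [hv] using h1

end Pool.Agent.E8helper71.UB
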