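import Mathlib

/-!
# Ultraproducts of fields
-/

set_option autoImplicit false

namespace Pool.Agent.E8helper71.UB

universe u v

open Filter Polynomial

section

variable {ι : Type v} (K : ι → Type u) [∀ j, Field (K j)] (U : Ultrafilter ι)

/-- the families which vanish almost everywhere -/
def nullIdeal : Ideal (∀ j, K j) where
  carrier := {x | ∀ᶠ j in (U : Filter ι), x j = 0}
  add_mem' := by
    intro a b ha hb
    filter_upwards [ha, hb] with j h1 h2
    rw [Pi.add_apply, h1, h2, add_zero]
  zero_mem' := Eventually.of_forall fun _ => rfl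
  smul_mem' := by
    intro c x hx
    filter_upwards [hx] with j h1
    rw [smul_eq_mul, Pi.mul_apply, h1, mul_zero]

/-- the ultraproduct -/
abbrev UP : Type (max u v) := (∀ j, K j) ⧸ nullIdeal K U

/-- the class of a family -/
abbrev mk : (∀ j, K j) →+* UP K U := Ideal.Quotient.mk (nullIdeal K U)

variable {K U}

lemma mem_nullIdeal {x : ∀ j, K j} : x ∈ nullIdeal K U ↔ ∀ᶠ j in (U : Filter ι), x j = 0 := Iff.rfl

theorem mk_eq {x y : ∀ j, K j} : mk K U x = mk K U y ↔ ∀ᶠ j in (U : Filter ι), x j = y j := by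
  rw [Ideal.Quotient.eq, mem_nullIdeal]
  simp only [Pi.sub_apply, sub_eq_zero]

theorem mk_surjective : Function.Surjective (mk K U) := Ideal.Quotient.mk_surjective

theorem mk_eq_zero {x : ∀ j, K j} : mk K U x = 0 ↔ ∀ᶠ j in (U : Filter ι), x j = 0 := by
  rw [← map_zero (mk K U), mk_eq]
  rfl

instance : (nullIdeal K U).IsMaximal := by
  rw [Ideal.isMaximal_iff]
  constructor
  · intro h
    obtain ⟨j, hj⟩ := (mem_nullIdeal.1 h).exists
    exact one_ne_zero hj
  · intro J x hJ hx hxJ
    have h1 : ∀ᶠ j in (U : Filter ι), x j ≠ 0 := Ultrafilter.eventually_not.2 hx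
    have h2 : (1 : ∀ j, K j) - (fun j => (x j)⁻¹) * x ∈ J := by
      apply hJ
      rw [mem_nullIdeal]
      filter_upwards [h1] with j hj
      rw [Pi.sub_apply, Pi.mul_apply, Pi.one_apply, inv_mul_cancel₀ hj, sub_self]
    have h3 := J.add_mem h2 (J.mul_mem_left (fun j => (x j)⁻¹) hxJ)
    rwa [sub_add_cancel] at h3

noncomputable instance : Field (UP K U) := Ideal.Quotient.field (nullIdeal K U)

instance [∀ j, CharZero (K j)] : CharZero (UP K U) := by
  constructor
  intro m n h
  have h1 : mk K U (m : ∀ j, K j) = mk K U (n : ∀ j, K j) := by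
    rw [map_natCast, map_natCast]
    exact h
  obtain ⟨j, hj⟩ := (mk_eq.1 h1).exists
  rw [Pi.natCast_apply, Pi.natCast_apply] at hj
  exact_mod_cast hj

instance [∀ j, IsAlgClosed (K j)] : IsAlgClosed (UP K U) := by
  classical
  refine IsAlgClosed.of_exists_root _ fun p hp hirr => ?_
  choose c hc using fun i => mk_surjective (K := K) (U := U) (p.coeff i)
  set d := p.natDegree with hd
  have hd0 : 0 < d := hirr.natDegree_pos
  have hroot : ∀ j, ∃ r : K j, r ^ d + ∑ i ∈ Finset.range d, c i j * r ^ i = 0 := by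
    intro j
    set Q : (K j)[X] := ∑ i ∈ Finset.range d, C (c i j) * X ^ i with hQ
    have hQd : Q.degree < d := by
      rw [hQ]
      refine (degree_sum_le _ _).trans_lt ?_
      rw [Finset.sup_lt_iff (by exact_mod_cast WithBot.bot_lt_coe d)]
      intro i hi
      rw [Finset.mem_range] at hi
      exact (degree_C_mul_X_pow_le _ _).trans_lt (by exact_mod_cast hi)
    have hdeg : (X ^ d + Q).degree = (d : WithBot ℕ) := by
      rw [degree_add_eq_left_of_degree_lt (by rwa [degree_X_pow]), degree_X_pow]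
    obtain ⟨r, hr⟩ := IsAlgClosed.exists_root (X ^ d + Q) (by
      rw [hdeg]
      exact_mod_cast hd0.ne')
    refine ⟨r, ?_⟩
    rw [IsRoot.def, eval_add, eval_pow, eval_X, hQ, eval_finsetSum] at hr
    simpa using hr
  choose r hr using hroot
  refine ⟨mk K U r, ?_⟩
  rw [hp.as_sum, eval_add, eval_pow, eval_X, eval_finsetSum]
  simp only [eval_mul, eval_C, eval_pow, eval_X]
  rw [← hd]
  simp_rw [← hc]
  rw [← map_pow]
  simp_rw [← map_pow, ← map_mul]
  rw [← map_sum, ← map_add, mk_eq_zero]
  refine Eventually.of_forall fun j => ?_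
  have := hr j
  simpa using this

end

end Pool.Agent.E8helper71.UB
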